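import Pool.Agent.W46.HD.UP
import Pool.Agent.W46.HD.KT
import Pool.Agent.W85.HD.Ent
import Pool.Agent.W505.HD.OCond
import Pool.Agent.W505.HD.Geo2
import Pool.Agent.W505.HD.Base
import Pool.Agent.W975.HD.Geo1
import Pool.Agent.W976.HD.Psi
import Pool.Agent.W976.HD.Iter
import Pool.Agent.W597.HD.CFG
import Pool.Agent.W605.HD.Haus

/-! # Lines with dense sets of heights: the exponent 1.6752, Hausdorff dimension of Kakeya sets -/

set_option autoImplicit false

namespace Pool.Agent.W46.HD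

theorem up : S_UP := UP W85.HD.COST W85.HD.INT W505.HD.OCOND W975.HD.G0 W975.HD.G3
  W505.HD.G4 W505.HD.G6 W505.HD.G9

theorem kt : S_KT := KT W85.HD.COST W85.HD.INT W505.HD.OCOND W975.HD.G0 W975.HD.G1 W975.HD.G3
  W505.HD.G4 W505.HD.G5 W505.HD.G6 W505.HD.G9

theorem step : S_STEP := W976.HD.STEP up kt (W597.HD.CFG W976.HD.PSI) W976.HD.PSI

theorem base : S_BASE := W505.HD.BASE W85.HD.COST W975.HD.G0 W975.HD.G1 W976.HD.PSI

theorem dense : Dense (16752 / 10000) := W976.HD.dense base step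

theorem hausdorff (d : ℕ) (K : Set (EuclideanSpace ℝ (Fin (d + 1)))) (hK : HasSegments K) :
    ENNReal.ofReal (1 + d / (16752 / 10000)) ≤ dimH K :=
  W605.HD.HAUS _ (by norm_num) dense d K hK

end Pool.Agent.W46.HD
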