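import Pool.Agent.W904.AK.Final

/-!
# Katz-Tao iteration for lines with dense sets of heights: statements of the parts

A family of lines in `ℝ × ℝ^d`: the line `ω` is at `A ω + j • D ω` at the height `j`, `0 ≤ j < n`
(scale: cells have side `1`, directions are separated by about `1/n`).
A law `p` on `Ω × Fin n` chooses a line and a height on it.
-/

set_option autoImplicit false

open Finset
open scoped Classical

namespace Pool.Agent.W46.HD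
open Pool.Agent.W904.AK

/-- Directions in `[0,1]^d`, at most one in every grid cube of side `1/n`. -/
structure IsFam {Ω : Type} {d : ℕ} (n : ℕ) (D : Ω → Fin d → ℝ) : Prop where
  pos : 1 ≤ n
  lo : ∀ ω i, 0 ≤ D ω i
  hi : ∀ ω i, D ω i ≤ 1
  inj : ∀ ω ω', (∀ i, ⌊(n : ℝ) * D ω i⌋ = ⌊(n : ℝ) * D ω' i⌋) → ω = ω'

section Defs

variable {Ω : Type} {d n : ℕ}

/-- The cell of the line `ω` at the height `j`. -/
noncomputable def cell (A D : Ω → Fin d → ℝ) (j : ℕ) (ω : Ω) : Fin d → ℤ :=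
  fun i => ⌊A ω i + (j : ℝ) * D ω i⌋

/-- The cell of the point at height `j` of `ω`, moved by `k` times the direction of `ω'`. -/
noncomputable def cz (A D : Ω → Fin d → ℝ) (j : ℕ) (k : ℤ) (ω ω' : Ω) : Fin d → ℤ :=
  fun i => ⌊A ω i + (j : ℝ) * D ω i + (k : ℝ) * D ω' i⌋

/-- `log (n / |i - j|)` -/
noncomputable def psi (n i j : ℕ) : ℝ := Real.log ((n : ℝ) / max 1 |(i : ℝ) - (j : ℝ)|)

/-- `log⁺ (n / |k|)` -/
noncomputable def phi (n : ℕ) (k : ℤ) : ℝ := Real.log (max 1 ((n : ℝ) / max 1 |(k : ℝ)|))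

/-- Rounded second coordinate of the point of the plane. -/
noncomputable def yy (s0 s1 t t' : ℕ) : ℤ :=
  round (((t' : ℝ) - s0) * ((t : ℝ) - s1) / ((t : ℝ) - s0))

/-- Rounded shift for the point `G`. -/
noncomputable def mm (s1 v τ : ℕ) (y : ℤ) : ℤ :=
  round ((y : ℝ) * ((τ : ℝ) - v) / ((τ : ℝ) - s1))

variable [Fintype Ω]

/-- Entropy of the line. -/
noncomputable def aa (p : Ω × Fin n → ℝ) : ℝ := H p Prod.fst

/-- Entropy of the point at the random height, given the height. -/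
noncomputable def hh (A D : Ω → Fin d → ℝ) (p : Ω × Fin n → ℝ) : ℝ :=
  H p (fun z => (z.2, cell A D z.2 z.1)) - H p Prod.snd

/-- Deficiency of the height given the line. -/
noncomputable def lam (p : Ω × Fin n → ℝ) : ℝ := Real.log n - (H p id - H p Prod.fst)

/-- The sums-differences inequality with exponent `b`, for all laws on (line, height). -/
def Orc (n : ℕ) (A D : Ω → Fin d → ℝ) (b C : ℝ) : Prop :=
  ∀ p : Ω × Fin n → ℝ, IsLaw p → aa p ≤ b * hh A D p + C * (1 + lam p)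

end Defs

/-! ### Entropy tools -/

/-- If `g` has few values given `f`, then `H (f, g)` is not much larger than `H f`. -/
def S_COST : Prop := ∀ (Θ : Type) [Fintype Θ] (α β : Type) (q : Θ → ℝ) (f : Θ → α) (g : Θ → β)
    (L : Θ → ℝ), IsLaw q →
    (∀ x, q x ≠ 0 → ∃ T : Finset β, (∀ y, q y ≠ 0 → f y = f x → g y ∈ T) ∧
      Real.log (T.card : ℝ) ≤ L x) →
    H q (fun x => (f x, g x)) ≤ H q f + ∑ x, q x * L x

/-- Gibbs' inequality. -/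
def S_GIBBS : Prop := ∀ (Θ : Type) [Fintype Θ] (α : Type) (q : Θ → ℝ) (f : Θ → α) (m : α → ℝ),
    IsLaw q → (∀ a, 0 < m a) → (∀ S : Finset α, ∑ a ∈ S, m a ≤ 1) →
    H q f ≤ ∑ x, q x * -Real.log (m (f x))

/-- Entropy of an integer valued variable. -/
def S_INT : Prop := ∀ (Θ : Type) [Fintype Θ] (q : Θ → ℝ) (f : Θ → ℤ) (n : ℕ),
    IsLaw q → 1 ≤ n →
    H q f ≤ Real.log n + 3 + 2 * ∑ x, q x * Real.log (1 + |(f x : ℝ)| / n)

/-- The conditional oracle. -/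
def S_OCOND : Prop := ∀ (d n : ℕ) (Ω : Type) [Fintype Ω] (A D : Ω → Fin d → ℝ) (b C : ℝ),
    Orc n A D b C →
    ∀ (Θ : Type) [Fintype Θ] (γ : Type) (q : Θ → ℝ) (l : Θ → Ω) (j : Θ → Fin n) (Q : Θ → γ),
    IsLaw q →
    H q (fun z => (Q z, l z)) - H q Q ≤
      b * (H q (fun z => (Q z, j z, cell A D (j z) (l z))) - H q (fun z => (Q z, j z))) +
      C * (1 + (Real.log n - (H q (fun z => (Q z, l z, j z)) - H q (fun z => (Q z, l z)))))

/-! ### Counting lemmas -/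

/-- There are at most about `n ^ d` lines. -/
def S_G0 : Prop := ∀ (d n : ℕ) (Ω : Type) [Fintype Ω] (D : Ω → Fin d → ℝ), IsFam n D →
    Real.log (Fintype.card Ω) ≤ d * (1 + Real.log n)

/-- Lines through two given cells. -/
def S_G1 : Prop := ∀ (d n : ℕ) (Ω : Type) [Fintype Ω] (A D : Ω → Fin d → ℝ), IsFam n D →
    ∀ i j : ℕ, i < n → j < n → ∀ (c c' : Fin d → ℤ) (T : Finset Ω),
    (∀ ω ∈ T, cell A D i ω = c ∧ cell A D j ω = c') →
    Real.log (T.card : ℝ) ≤ d * (3 + psi n i j)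

/-- Directions `D ω` with `u` and `u + k D ω` in given cells (`u` may depend on `ω`). -/
def S_G3 : Prop := ∀ (d n : ℕ) (Ω : Type) [Fintype Ω] (D : Ω → Fin d → ℝ), IsFam n D →
    ∀ (k : ℤ) (c0 c : Fin d → ℤ) (T : Finset Ω),
    (∀ ω ∈ T, ∃ u : Fin d → ℝ, (∀ i, ⌊u i⌋ = c0 i) ∧ ∀ i, ⌊u i + (k : ℝ) * D ω i⌋ = c i) →
    Real.log (T.card : ℝ) ≤ d * (3 + phi n k)

/-- Cells of affine combinations of points of two given cells, up to errors. -/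
def S_G4 : Prop := ∀ (d : ℕ) (ρ : ℝ) (c1 c2 : Fin d → ℤ), ∃ T : Finset (Fin d → ℤ),
    (∀ x y e w : Fin d → ℝ, (∀ i, ⌊x i⌋ = c1 i) → (∀ i, ⌊y i⌋ = c2 i) → (∀ i, |e i| ≤ 1) →
      (∀ i, |w i| ≤ 1) → (fun i => ⌊ρ * x i + (1 - ρ) * y i + (1 - ρ) * e i + w i⌋) ∈ T) ∧
    Real.log (T.card : ℝ) ≤ d * (3 + Real.log (1 + |ρ|))

/-- Values `y` with a given value of `mm`. -/
def S_G5 : Prop := ∀ n s1 v τ : ℕ, s1 < n → v < n → τ < n → ∀ m : ℤ, ∃ T : Finset ℤ,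
    (∀ y : ℤ, |y| ≤ (n : ℤ) ^ 2 + 1 → mm s1 v τ y = m → y ∈ T) ∧
    Real.log (T.card : ℝ) ≤ 3 + 2 * psi n τ v + 2 * psi n τ s1

/-- Heights `t'` with a given value of `yy`. -/
def S_G6 : Prop := ∀ n s0 s1 t : ℕ, s0 < n → s1 < n → t < n → ∀ y : ℤ, ∃ T : Finset (Fin n),
    (∀ t' : Fin n, yy s0 s1 t t' = y → t' ∈ T) ∧
    Real.log (T.card : ℝ) ≤ 3 + psi n t s1 + psi n t s0

/-- Sizes of `yy` and `mm`. -/
def S_G9 : Prop := ∀ n s0 s1 t t' v τ : ℕ, s0 < n → s1 < n → t < n → t' < n → v < n → τ < n →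
    |yy s0 s1 t t'| ≤ (n : ℤ) ^ 2 + 1 ∧
    phi n (yy s0 s1 t t') ≤ 3 + psi n t' s0 + psi n t s1 + psi n t s0 ∧
    Real.log (1 + |(yy s0 s1 t t' : ℝ)| / n) ≤ 3 + psi n t s0 ∧
    ∀ y : ℤ, phi n (mm s1 v τ y) ≤ 3 + phi n y + psi n τ v + psi n τ s1 ∧
      Real.log (1 + |(mm s1 v τ y : ℝ)| / n) ≤ 3 + Real.log (1 + |(y : ℝ)| / n) + psi n τ s1

/-! ### The configuration -/

/-- Path of three lines `l3 - l1 - l2`: `l1, l3` meet at the height `s0`, `l1, l2` meet at the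
height `s1`; further independent heights `t` on `l1`, `t'` on `l3`, `τ, v` on `l2`. -/
structure Cfg {Ω : Type} [Fintype Ω] {d n : ℕ} (A D : Ω → Fin d → ℝ) (p : Ω × Fin n → ℝ)
    {Θ : Type} [Fintype Θ] (q : Θ → ℝ) (l1 l2 l3 : Θ → Ω) (s0 s1 t t' τ v : Θ → Fin n) :
    Prop where
  law : IsLaw q
  i0 : ∀ z, q z ≠ 0 → cell A D (s0 z) (l1 z) = cell A D (s0 z) (l3 z)
  i1 : ∀ z, q z ≠ 0 → cell A D (s1 z) (l1 z) = cell A D (s1 z) (l2 z)
  ht : H q (fun z => (t z, cell A D (t z) (l1 z))) - H q t = hh A D p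
  ht' : H q (fun z => (t' z, cell A D (t' z) (l3 z))) - H q t' = hh A D p
  hτ : H q (fun z => (τ z, cell A D (τ z) (l2 z))) - H q τ = hh A D p
  hv : H q (fun z => (v z, cell A D (v z) (l2 z))) - H q v = hh A D p
  U3 : H q (fun z => (l1 z, l2 z, l3 z, s0 z, s1 z)) ≤ 3 * aa p - 2 * hh A D p + 2 * Real.log n
  T3 : 3 * aa p - 2 * hh A D p + 6 * Real.log n - 8 * lam p ≤
    H q (fun z => (l1 z, l2 z, l3 z, s0 z, s1 z, v z, t z, τ z, t' z))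
  U2 : H q (fun z => (l1 z, l3 z, s0 z)) ≤ 2 * aa p - hh A D p + Real.log n
  T2 : 2 * aa p - hh A D p + 4 * Real.log n - 5 * lam p ≤
    H q (fun z => (l1 z, l3 z, s0 z, s1 z, t z, t' z))
  mar : H q (fun z => (s0 z, s1 z, v z, cell A D (s0 z) (l1 z), cell A D (v z) (l2 z))) +
      aa p - hh A D p - lam p ≤
    H q (fun z => (s0 z, s1 z, v z, cell A D (v z) (l2 z), l3 z))
  pp : H q (fun z => (s0 z, s1 z, v z, cell A D (s0 z) (l1 z), cell A D (v z) (l2 z))) -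
      H q (fun z => (s0 z, s1 z, v z)) =
    H q (fun z => (s0 z, t z, t' z, cell A D (t z) (l1 z), cell A D (t' z) (l3 z))) -
      H q (fun z => (s0 z, t z, t' z))
  c1 : ∑ z, q z * psi n (s0 z) (s1 z) ≤ 2 * lam p + 4
  c2 : ∑ z, q z * psi n (t z) (s0 z) ≤ 2 * lam p + 4
  c3 : ∑ z, q z * psi n (t z) (s1 z) ≤ 2 * lam p + 4
  c4 : ∑ z, q z * psi n (t' z) (s0 z) ≤ 2 * lam p + 4
  c5 : ∑ z, q z * psi n (τ z) (s1 z) ≤ 2 * lam p + 4
  c6 : ∑ z, q z * psi n (τ z) (v z) ≤ 2 * lam p + 4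
  c7 : ∑ z, q z * psi n (v z) (s1 z) ≤ 2 * lam p + 4

/-- Existence of the configuration. -/
def S_CFG : Prop := ∀ (Ω : Type) [Fintype Ω] (d n : ℕ) (A D : Ω → Fin d → ℝ)
    (p : Ω × Fin n → ℝ), 1 ≤ n → IsLaw p →
    ∃ (Θ : Type) (_ : Fintype Θ) (q : Θ → ℝ) (l1 l2 l3 : Θ → Ω) (s0 s1 t t' τ v : Θ → Fin n),
      Cfg A D p q l1 l2 l3 s0 s1 t t' τ v

/-- Two independent heights on one line: the deficiency controls `psi`. -/
def S_PSI : Prop := ∀ (Ω : Type) [Fintype Ω] (n : ℕ) (p : Ω × Fin n → ℝ), 1 ≤ n → IsLaw p →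
    0 ≤ lam p ∧
    ∑ z, glue p p Prod.fst Prod.fst z * psi n z.1.2 z.2.2 ≤ 2 * lam p + 4

/-- `phi`-entropy: the point `Z` of the plane of `l1, l3`. -/
noncomputable def ph {Ω : Type} {d n : ℕ} (A D : Ω → Fin d → ℝ) {Θ : Type} [Fintype Θ]
    (q : Θ → ℝ) (l1 l3 : Θ → Ω) (s0 s1 t t' : Θ → Fin n) : ℝ :=
  H q (fun z => (s0 z, s1 z, yy (s0 z) (s1 z) (t z) (t' z),
      cz A D (s1 z) (yy (s0 z) (s1 z) (t z) (t' z)) (l1 z) (l3 z))) -
    H q (fun z => (s0 z, s1 z, yy (s0 z) (s1 z) (t z) (t' z)))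

/-- The upper bound for `phi` from the pair `l1, l3`. -/
def S_UP : Prop := ∀ (d : ℕ) (b C : ℝ), 1 < b → 0 ≤ C → ∃ C' : ℝ, 0 ≤ C' ∧
    ∀ (n : ℕ) (Ω : Type) [Fintype Ω] (A D : Ω → Fin d → ℝ), IsFam n D → Orc n A D b C →
    ∀ (p : Ω × Fin n → ℝ), IsLaw p → 0 ≤ lam p →
    ∀ (Θ : Type) [Fintype Θ] (q : Θ → ℝ) (l1 l2 l3 : Θ → Ω) (s0 s1 t t' τ v : Θ → Fin n),
    Cfg A D p q l1 l2 l3 s0 s1 t t' τ v →
    2 * aa p - hh A D p + (b - 1) * ph A D q l1 l3 s0 s1 t t' ≤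
      b * (H q (fun z => (s0 z, t z, t' z, cell A D (t z) (l1 z), cell A D (t' z) (l3 z))) -
        H q (fun z => (s0 z, t z, t' z))) + C' * (1 + lam p)

/-- The lower bound for `phi` from the path. -/
def S_KT : Prop := ∀ (d : ℕ) (b C : ℝ), 1 < b → 0 ≤ C → ∃ C' : ℝ, 0 ≤ C' ∧
    ∀ (n : ℕ) (Ω : Type) [Fintype Ω] (A D : Ω → Fin d → ℝ), IsFam n D → Orc n A D b C →
    ∀ (p : Ω × Fin n → ℝ), IsLaw p → 0 ≤ lam p →
    ∀ (Θ : Type) [Fintype Θ] (q : Θ → ℝ) (l1 l2 l3 : Θ → Ω) (s0 s1 t t' τ v : Θ → Fin n),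
    Cfg A D p q l1 l2 l3 s0 s1 t t' τ v →
    3 * aa p - 2 * hh A D p + (b - 1) * (aa p +
      (H q (fun z => (s0 z, s1 z, v z, cell A D (s0 z) (l1 z), cell A D (v z) (l2 z))) -
        H q (fun z => (s0 z, s1 z, v z))) - 2 * hh A D p) ≤
      b * (hh A D p + ph A D q l1 l3 s0 s1 t t') + C' * (1 + lam p)

/-! ### Iteration and the dense theorem -/

/-- The base case. -/
def S_BASE : Prop := ∀ d : ℕ, ∃ C : ℝ, 0 ≤ C ∧ ∀ (n : ℕ) (Ω : Type) [Fintype Ω]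
    (A D : Ω → Fin d → ℝ), IsFam n D → Orc n A D 2 C

/-- The step. -/
def S_STEP : Prop := ∀ (d : ℕ) (b C : ℝ), 1 < b → 0 ≤ C → ∃ C' : ℝ, 0 ≤ C' ∧
    ∀ (n : ℕ) (Ω : Type) [Fintype Ω] (A D : Ω → Fin d → ℝ), IsFam n D → Orc n A D b C →
    Orc n A D ((3 * b ^ 2 + 2 * b - 2) / (b ^ 2 + 3 * b - 2)) C'

/-- The counting inequality with exponent `c` for lines with dense sets of heights. -/
def Dense (c : ℝ) : Prop := ∀ d : ℕ, ∃ C : ℝ, 0 ≤ C ∧ ∀ (n : ℕ) (Ω : Type) [Fintype Ω]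
    [Nonempty Ω] (A D : Ω → Fin d → ℝ), IsFam n D → ∀ (E : Ω → Finset (Fin n)) (l : ℝ), 0 < l →
    (∀ ω, l * n ≤ ((E ω).card : ℝ)) →
    Real.log (Fintype.card Ω) ≤
      c * Real.log ((∑ j : Fin n,
        (((Finset.univ.filter fun ω => j ∈ E ω).image (cell A D j)).card : ℝ)) / n) +
      C * (1 + Real.log (1 / l))

/-- `K` contains a unit segment in every direction. -/
def HasSegments {n : ℕ} (K : Set (EuclideanSpace ℝ (Fin n))) : Prop :=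
  ∀ e : EuclideanSpace ℝ (Fin n), ‖e‖ = 1 → ∃ a : EuclideanSpace ℝ (Fin n),
    ∀ t ∈ Set.Icc (0 : ℝ) 1, a + t • e ∈ K

/-- Hausdorff dimension of Kakeya sets. -/
def S_HAUS : Prop := ∀ c : ℝ, 1 ≤ c → Dense c → ∀ (d : ℕ) (K : Set (EuclideanSpace ℝ (Fin (d + 1)))),
    HasSegments K → ENNReal.ofReal (1 + d / c) ≤ dimH K

end Pool.Agent.W46.HD
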