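import Pool.Agent.W46.HD.Stm

/-! # Small tools for the two rows -/

set_option autoImplicit false

open Finset
open scoped Classical

namespace Pool.Agent.W46.HD
open Pool.Agent.W904.AK

section E

variable {Θ : Type} [Fintype Θ] {q : Θ → ℝ}

/-- expectation -/
noncomputable def EE (q : Θ → ℝ) (f : Θ → ℝ) : ℝ := ∑ z, q z * f z

theorem EE_mono (hq : IsLaw q) {f g : Θ → ℝ} (h : ∀ z, q z ≠ 0 → f z ≤ g z) : EE q f ≤ EE q g := by
  refine Finset.sum_le_sum fun z _ => ?_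
  by_cases hz : q z = 0
  · simp [hz]
  · exact mul_le_mul_of_nonneg_left (h z hz) (hq.nonneg z)

theorem EE_add (f g : Θ → ℝ) : EE q (fun z => f z + g z) = EE q f + EE q g := by
  simp only [EE, mul_add, Finset.sum_add_distrib]

theorem EE_mul (c : ℝ) (f : Θ → ℝ) : EE q (fun z => c * f z) = c * EE q f := by
  simp only [EE, Finset.mul_sum]
  exact Finset.sum_congr rfl fun z _ => by ring

theorem EE_const (hq : IsLaw q) (c : ℝ) : EE q (fun _ => c) = c := by
  simp only [EE, ← Finset.sum_mul, hq.total, one_mul]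

theorem cost (hCOST : S_COST) {α β γ : Type} (hq : IsLaw q) {f : Θ → α} {g : Θ → β} {k : Θ → γ}
    (L : Θ → ℝ) (hk : Det q (fun x => (f x, g x)) k)
    (hT : ∀ x, q x ≠ 0 → ∃ T : Finset β, (∀ y, q y ≠ 0 → f y = f x → g y ∈ T) ∧
      Real.log (T.card : ℝ) ≤ L x) : H q k ≤ H q f + EE q L :=
  (H_mono hq hk).trans (hCOST Θ α β q f g L hq hT)

theorem H_height (hq : IsLaw q) {n : ℕ} (s : Θ → Fin n) : H q s ≤ Real.log n := by
  have := H_le_log_card hq s Finset.univ (fun x _ => Finset.mem_univ _)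
  rwa [Finset.card_univ, Fintype.card_fin] at this

end E

theorem psi_nonneg {n i j : ℕ} (hi : i < n) (hj : j < n) : 0 ≤ psi n i j := by
  unfold psi
  apply Real.log_nonneg
  have hn : (1 : ℝ) ≤ n := by exact_mod_cast (by omega : 1 ≤ n)
  have hi' : (i : ℝ) < n := by exact_mod_cast hi
  have hj' : (j : ℝ) < n := by exact_mod_cast hj
  have hi0 : (0 : ℝ) ≤ i := Nat.cast_nonneg _
  have hj0 : (0 : ℝ) ≤ j := Nat.cast_nonneg _
  rw [le_div_iff₀ (lt_of_lt_of_le one_pos (le_max_left _ _)), one_mul]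
  refine max_le hn ?_
  rw [abs_le]
  constructor <;> linarith

theorem phi_nonneg (n : ℕ) (k : ℤ) : 0 ≤ phi n k := Real.log_nonneg (le_max_left _ _)

/-- the cell of an affine combination -/
theorem comb_cell (hG4 : S_G4) {d : ℕ} (ρ : ℝ) (c1 c2 : Fin d → ℤ) :
    ∃ T : Finset (Fin d → ℤ), (∀ (x y e w g : Fin d → ℝ), (∀ i, ⌊x i⌋ = c1 i) →
      (∀ i, ⌊y i⌋ = c2 i) → (∀ i, |e i| ≤ 1) → (∀ i, |w i| ≤ 1) →
      (∀ i, g i = ρ * x i + (1 - ρ) * y i + (1 - ρ) * e i + w i) → (fun i => ⌊g i⌋) ∈ T) ∧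
    Real.log (T.card : ℝ) ≤ d * (3 + Real.log (1 + |ρ|)) := by
  obtain ⟨T, hT, hc⟩ := hG4 d ρ c1 c2
  refine ⟨T, ?_, hc⟩
  intro x y e w g hx hy he hw hg
  have := hT x y e w hx hy he hw
  have h2 : (fun i => ⌊g i⌋) = fun i => ⌊ρ * x i + (1 - ρ) * y i + (1 - ρ) * e i + w i⌋ := by
    funext i
    rw [hg i]
  rw [h2]
  exact this

theorem same_floor {x y : ℝ} (h : ⌊x⌋ = ⌊y⌋) : |x - y| ≤ 1 := by
  have h1 := Int.floor_le x
  have h2 := Int.lt_floor_add_one x
  have h3 := Int.floor_le y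
  have h4 := Int.lt_floor_add_one y
  rw [h] at h1 h2
  rw [abs_le]
  constructor <;> linarith

/-- the coefficient is at most `n / |i - j|` -/
theorem log_ratio {n i j k : ℕ} (hi : i < n) (hj : j < n) (hk : k < n) (hij : i ≠ j) :
    Real.log (1 + |((k : ℝ) - j) / ((i : ℝ) - j)|) ≤ 1 + psi n i j := by
  have hi' : (i : ℝ) < n := by exact_mod_cast hi
  have hj' : (j : ℝ) < n := by exact_mod_cast hj
  have hk' : (k : ℝ) < n := by exact_mod_cast hk
  have hi0 : (0 : ℝ) ≤ i := Nat.cast_nonneg _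
  have hj0 : (0 : ℝ) ≤ j := Nat.cast_nonneg _
  have hk0 : (0 : ℝ) ≤ k := Nat.cast_nonneg _
  have hd : (1 : ℝ) ≤ |(i : ℝ) - j| := by
    have h1 : (1 : ℤ) ≤ |(i : ℤ) - j| := by
      apply Int.one_le_abs
      intro h
      apply hij
      have : (i : ℤ) = j := by linarith
      exact_mod_cast this
    exact_mod_cast h1
  unfold psi
  rw [max_eq_right hd]
  have hpos : 0 < |(i : ℝ) - j| := by linarith
  have hle : |(i : ℝ) - j| ≤ n := by
    rw [abs_le]; constructor <;> linarith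
  have h1 : 1 ≤ (n : ℝ) / |(i : ℝ) - j| := by
    rw [le_div_iff₀ hpos]; linarith
  have h2 : |((k : ℝ) - j) / ((i : ℝ) - j)| ≤ (n : ℝ) / |(i : ℝ) - j| := by
    rw [abs_div]
    apply div_le_div_of_nonneg_right _ hpos.le
    rw [abs_le]; constructor <;> linarith
  calc Real.log (1 + |((k : ℝ) - j) / ((i : ℝ) - j)|)
      ≤ Real.log (2 * ((n : ℝ) / |(i : ℝ) - j|)) := by
        apply Real.log_le_log (by positivity)
        linarith
    _ = Real.log 2 + Real.log ((n : ℝ) / |(i : ℝ) - j|) := by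
        rw [Real.log_mul (by norm_num) (by positivity)]
    _ ≤ 1 + Real.log ((n : ℝ) / |(i : ℝ) - j|) := by
        have := Real.log_two_lt_d9
        linarith

/-- `P_k = ρ P_i + (1 - ρ) P_j` -/
theorem pt_comb {i j : ℝ} (hij : i ≠ j) (a D k : ℝ) :
    a + k * D = (k - j) / (i - j) * (a + i * D) + (1 - (k - j) / (i - j)) * (a + j * D) := by
  have : i - j ≠ 0 := sub_ne_zero.mpr hij
  field_simp
  ring

end Pool.Agent.W46.HD
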