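import Pool.Agent.W46.HD.Tools

/-! # The upper bound for `phi` from two lines meeting at a random height -/

set_option autoImplicit false

open Finset
open scoped Classical

namespace Pool.Agent.W46.HD
open Pool.Agent.W904.AK

theorem UP (hCOST : S_COST) (hINT : S_INT) (hOC : S_OCOND) (hG0 : S_G0) (hG3 : S_G3)
    (hG4 : S_G4) (hG6 : S_G6) (hG9 : S_G9) : S_UP := by
  intro d b C hb hC
  refine ⟨1000 * ((d : ℝ) + 1) * (b + C + 1), by positivity, ?_⟩
  intro n Ω _ A D hfam hO p hp hlam Θ _ q l1 l2 l3 s0 s1 t t' τ v hc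
  have hq := hc.law
  obtain ⟨Y, hY⟩ : ∃ Y : Θ → ℤ, Y = fun z => yy (s0 z) (s1 z) (t z) (t' z) := ⟨_, rfl⟩
  obtain ⟨Z, hZ⟩ : ∃ Z : Θ → Fin d → ℤ, Z = fun z => cz A D (s1 z) (Y z) (l1 z) (l3 z) := ⟨_, rfl⟩
  have hph : ph A D q l1 l3 s0 s1 t t' = H q (fun z => (s0 z, s1 z, Y z, Z z)) -
      H q (fun z => (s0 z, s1 z, Y z)) := by
    simp only [ph, hZ, hY]
  have hYd : ∀ x y, s0 x = s0 y → s1 x = s1 y → t x = t y → t' x = t' y → Y x = Y y := by
    intro x y h1 h2 h3 h4
    simp only [hY, h1, h2, h3, h4]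
  have hZd : ∀ x y, s1 x = s1 y → Y x = Y y → l1 x = l1 y → l3 x = l3 y → Z x = Z y := by
    intro x y h1 h2 h3 h4
    simp only [hZ, h1, h2, h3, h4]
  -- abbreviations for the expectations
  obtain ⟨e1, he1⟩ : ∃ e1, e1 = EE q (fun z => psi n (t z) (s0 z)) := ⟨_, rfl⟩
  obtain ⟨e2, he2⟩ : ∃ e2, e2 = EE q (fun z => psi n (t z) (s1 z)) := ⟨_, rfl⟩
  obtain ⟨e3, he3⟩ : ∃ e3, e3 = EE q (fun z => psi n (t' z) (s0 z)) := ⟨_, rfl⟩
  have b1 : e1 ≤ 2 * lam p + 4 := he1 ▸ hc.c2
  have b2 : e2 ≤ 2 * lam p + 4 := he2 ▸ hc.c3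
  have b3 : e3 ≤ 2 * lam p + 4 := he3 ▸ hc.c4
  have hpn : ∀ (i j : Fin n), 0 ≤ psi n i j := fun i j => psi_nonneg i.2 j.2
  have n1 : 0 ≤ e1 := by
    rw [he1]; exact Finset.sum_nonneg fun z _ => mul_nonneg (hq.nonneg z) (hpn _ _)
  have n2 : 0 ≤ e2 := by
    rw [he2]; exact Finset.sum_nonneg fun z _ => mul_nonneg (hq.nonneg z) (hpn _ _)
  have n3 : 0 ≤ e3 := by
    rw [he3]; exact Finset.sum_nonneg fun z _ => mul_nonneg (hq.nonneg z) (hpn _ _)
  -- sizes of Y
  have h9 := fun z => hG9 n (s0 z) (s1 z) (t z) (t' z) (s0 z) (s0 z) (s0 z).2 (s1 z).2 (t z).2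
    (t' z).2 (s0 z).2 (s0 z).2
  -- H Y
  have hHY : H q Y ≤ Real.log n + 9 + 2 * e1 := by
    have h := hINT Θ q Y n hq hfam.pos
    have h2 : EE q (fun z => Real.log (1 + |(Y z : ℝ)| / n)) ≤ 3 + e1 := by
      rw [he1, ← EE_const hq 3, ← EE_add]
      refine EE_mono hq fun z _ => ?_
      have := (h9 z).2.2.1
      rw [hY]
      exact this
    have h3 : ∑ x, q x * Real.log (1 + |(Y x : ℝ)| / n) =
      EE q (fun z => Real.log (1 + |(Y z : ℝ)| / n)) := rfl
    rw [h3] at h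
    linarith
  -- cost of t'
  have ce : ∀ {α γ : Type} (f : Θ → α) (k : Θ → γ), Det q f (fun z => (s0 z, s1 z, t z, Y z)) →
      Det q (fun z => (f z, t' z)) k → H q k ≤ H q f + (3 + e2 + e1) := by
    intro α γ f k hf hk
    have h := cost hCOST hq (f := f) (g := t') (k := k)
      (fun z => 3 + psi n (t z) (s1 z) + psi n (t z) (s0 z)) hk (by
        intro x hx
        obtain ⟨T, hT1, hT2⟩ := hG6 n (s0 x) (s1 x) (t x) (s0 x).2 (s1 x).2 (t x).2 (Y x)
        refine ⟨T, ?_, hT2⟩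
        intro y hy hfy
        have h1 := hf y x hy hx hfy
        simp only [Prod.mk.injEq] at h1
        obtain ⟨h2, h3, h4, h5⟩ := h1
        apply hT1
        rw [← h5, ← h2, ← h3, ← h4, hY])
    have h2 : EE q (fun z => 3 + psi n (t z) (s1 z) + psi n (t z) (s0 z)) = 3 + e2 + e1 := by
      rw [EE_add (fun z => 3 + psi n (t z) (s1 z)) (fun z => psi n (t z) (s0 z)),
        EE_add (fun z => (3 : ℝ)) (fun z => psi n (t z) (s1 z)), EE_const hq, he1, he2]
    rw [h2] at h
    exact h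
  -- cost of l3
  have cf : H q (fun z => (l1 z, l3 z, s0 z, s1 z, Y z)) ≤
      H q (fun z => ((s0 z, s1 z, Y z, Z z), l1 z)) + d * (6 + e3 + e2 + e1) := by
    have h := cost hCOST hq (f := fun z => ((s0 z, s1 z, Y z, Z z), l1 z)) (g := l3)
      (k := fun z => (l1 z, l3 z, s0 z, s1 z, Y z)) (fun z => d * (3 + phi n (Y z))) (by
        intro x y _ _ h
        simp only [Prod.mk.injEq] at h ⊢
        tauto) (by
        intro x hx
        refine ⟨Finset.univ.filter fun ω => cz A D (s1 x) (Y x) (l1 x) ω = Z x, ?_, ?_⟩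
        · intro y hy hfy
          simp only [Prod.mk.injEq] at hfy
          obtain ⟨⟨h1, h2, h3, h4⟩, h5⟩ := hfy
          rw [Finset.mem_filter]
          refine ⟨Finset.mem_univ _, ?_⟩
          rw [← h4, ← h2, ← h3, ← h5]
          simp only [hZ]
        · refine hG3 d n Ω D hfam (Y x) (fun i => ⌊A (l1 x) i + (s1 x : ℝ) * D (l1 x) i⌋) (Z x) _ ?_
          intro ω hω
          rw [Finset.mem_filter] at hω
          refine ⟨fun i => A (l1 x) i + (s1 x : ℝ) * D (l1 x) i, fun i => rfl, fun i => ?_⟩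
          have := congrFun hω.2 i
          simpa only [cz] using this)
    refine h.trans ?_
    have h2 : EE q (fun z => d * (3 + phi n (Y z))) ≤ d * (6 + e3 + e2 + e1) := by
      have h3 : EE q (fun z => d * (3 + phi n (Y z))) ≤
          EE q (fun z => d * (((6 + psi n (t' z) (s0 z)) + psi n (t z) (s1 z)) +
            psi n (t z) (s0 z))) := by
        refine EE_mono hq fun z _ => ?_
        have h4 := (h9 z).2.1
        have h5 : phi n (Y z) ≤ 3 + psi n (t' z) (s0 z) + psi n (t z) (s1 z)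
            + psi n (t z) (s0 z) := by
          rw [hY]; exact h4
        have hd : (0 : ℝ) ≤ d := Nat.cast_nonneg d
        nlinarith
      refine h3.trans (le_of_eq ?_)
      rw [EE_mul, EE_add (fun z => (6 + psi n (t' z) (s0 z)) + psi n (t z) (s1 z))
        (fun z => psi n (t z) (s0 z)), EE_add (fun z => (6 + psi n (t' z) (s0 z)))
        (fun z => psi n (t z) (s1 z)), EE_add (fun z => (6 : ℝ)) (fun z => psi n (t' z) (s0 z)),
        EE_const hq, he1, he2, he3]
    linarith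
  -- cost of Z
  have cg : H q (fun z => ((s0 z, s1 z, Y z, Z z), t z, cell A D (t z) (l1 z))) ≤
      H q (fun z => ((s0 z, s1 z, Y z, t z, t' z), cell A D (t z) (l1 z),
        cell A D (t' z) (l3 z))) + d * (6 + 2 * e1) := by
    have h := cost hCOST hq (f := fun z => ((s0 z, s1 z, Y z, t z, t' z), cell A D (t z) (l1 z),
        cell A D (t' z) (l3 z))) (g := Z)
      (k := fun z => ((s0 z, s1 z, Y z, Z z), t z, cell A D (t z) (l1 z)))
      (fun z => d * (6 + 2 * psi n (t z) (s0 z))) (by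
        intro x y _ _ h
        simp only [Prod.mk.injEq] at h ⊢
        tauto) (by
        intro x hx
        by_cases hts : (t x : ℕ) = (s0 x : ℕ)
        · -- degenerate case
          refine ⟨Finset.univ.image fun w : Ω × Ω => cz A D (s1 x) (Y x) w.1 w.2, ?_, ?_⟩
          · intro y hy hfy
            simp only [Prod.mk.injEq] at hfy
            obtain ⟨⟨h1, h2, h3, h4, h5⟩, h6, h7⟩ := hfy
            rw [Finset.mem_image]
            refine ⟨(l1 y, l3 y), Finset.mem_univ _, ?_⟩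
            rw [← h2, ← h3]
            simp only [hZ]
          · have h0 := hG0 d n Ω D hfam
            have hpos : 0 < (Finset.univ.image
                fun w : Ω × Ω => cz A D (s1 x) (Y x) w.1 w.2).card :=
              Finset.card_pos.mpr ⟨_, Finset.mem_image_of_mem _ (Finset.mem_univ (l1 x, l3 x))⟩
            have hle : (Finset.univ.image
                fun w : Ω × Ω => cz A D (s1 x) (Y x) w.1 w.2).card ≤
                Fintype.card Ω * Fintype.card Ω := by
              refine Finset.card_image_le.trans ?_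
              rw [Finset.card_univ, Fintype.card_prod]
            have hcΩ : 0 < Fintype.card Ω := Fintype.card_pos_iff.mpr ⟨l1 x⟩
            have h1 : Real.log ((Finset.univ.image
                fun w : Ω × Ω => cz A D (s1 x) (Y x) w.1 w.2).card : ℝ) ≤
                Real.log (Fintype.card Ω) + Real.log (Fintype.card Ω) := by
              rw [← Real.log_mul (by positivity) (by positivity)]
              apply Real.log_le_log (by exact_mod_cast hpos)
              exact_mod_cast hle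
            have h2 : psi n (t x) (s0 x) = Real.log n := by
              unfold psi
              rw [hts, sub_self, abs_zero, max_eq_left zero_le_one, div_one]
            rw [h2]
            have hd : (0 : ℝ) ≤ d := Nat.cast_nonneg d
            nlinarith
        · -- generic case
          have htsr : ((t x : ℕ) : ℝ) ≠ ((s0 x : ℕ) : ℝ) := fun h => hts (by exact_mod_cast h)
          set ρ : ℝ := (((s1 x : ℕ) : ℝ) - (s0 x : ℕ)) / (((t x : ℕ) : ℝ) - (s0 x : ℕ)) with hρ
          obtain ⟨T, hT1, hT2⟩ := comb_cell hG4 ρ (cell A D (t x) (l1 x)) (cell A D (t' x) (l3 x))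
          refine ⟨T, ?_, ?_⟩
          · intro y hy hfy
            simp only [Prod.mk.injEq] at hfy
            obtain ⟨⟨h1, h2, h3, h4, h5⟩, h6, h7⟩ := hfy
            have hinc := hc.i0 y hy
            have hmem := hT1 (fun i => A (l1 y) i + ((t x : ℕ) : ℝ) * D (l1 y) i)
              (fun i => A (l3 y) i + ((t' x : ℕ) : ℝ) * D (l3 y) i)
              (fun i => (A (l1 y) i + ((s0 x : ℕ) : ℝ) * D (l1 y) i) -
                (A (l3 y) i + ((s0 x : ℕ) : ℝ) * D (l3 y) i))
              (fun i => ((Y x : ℝ) - (1 - ρ) * (((t' x : ℕ) : ℝ) - (s0 x : ℕ))) * D (l3 y) i)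
              (fun i => A (l1 y) i + ((s1 x : ℕ) : ℝ) * D (l1 y) i + (Y x : ℝ) * D (l3 y) i)
              (fun i => by
                have := congrFun h6 i
                rw [h4] at this
                simpa only [cell] using this)
              (fun i => by
                have := congrFun h7 i
                rw [h5] at this
                simpa only [cell] using this)
              (fun i => by
                have := congrFun hinc i
                rw [h1] at this
                simp only [cell] at this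
                exact same_floor this)
              (fun i => by
                have hr : |(Y x : ℝ) - (1 - ρ) * (((t' x : ℕ) : ℝ) - (s0 x : ℕ))| ≤ 1 / 2 := by
                  have hy1 : Y x = round ((((t' x : ℕ) : ℝ) - (s0 x : ℕ)) *
                      (((t x : ℕ) : ℝ) - (s1 x : ℕ)) / (((t x : ℕ) : ℝ) - (s0 x : ℕ))) := by
                    rw [hY]; rfl
                  have hy2 : (1 - ρ) * (((t' x : ℕ) : ℝ) - (s0 x : ℕ)) =
                      (((t' x : ℕ) : ℝ) - (s0 x : ℕ)) *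
                      (((t x : ℕ) : ℝ) - (s1 x : ℕ)) / (((t x : ℕ) : ℝ) - (s0 x : ℕ)) := by
                    have : ((t x : ℕ) : ℝ) - (s0 x : ℕ) ≠ 0 := sub_ne_zero.mpr htsr
                    rw [hρ]
                    field_simp
                    ring
                  rw [hy2, hy1, abs_sub_comm]
                  exact abs_sub_round _
                rw [abs_mul, abs_of_nonneg (hfam.lo _ _)]
                have h8 := hfam.hi (l3 y) i
                have h9 := hfam.lo (l3 y) i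
                nlinarith [abs_nonneg ((Y x : ℝ) - (1 - ρ) * (((t' x : ℕ) : ℝ) - (s0 x : ℕ)))])
              (fun i => by
                have h8 := pt_comb htsr (A (l1 y) i) (D (l1 y) i) ((s1 x : ℕ) : ℝ)
                rw [← hρ] at h8
                rw [h8]
                ring)
            have hgoal : Z y = fun i => ⌊A (l1 y) i + ((s1 x : ℕ) : ℝ) * D (l1 y) i +
                (Y x : ℝ) * D (l3 y) i⌋ := by
              rw [← h2, ← h3]
              simp only [hZ]
              rfl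
            rw [hgoal]
            exact hmem
          · refine hT2.trans ?_
            have h1 := log_ratio (t x).2 (s0 x).2 (s1 x).2 hts
            have h2 := hpn (t x) (s0 x)
            have hd : (0 : ℝ) ≤ d := Nat.cast_nonneg d
            apply mul_le_mul_of_nonneg_left _ hd
            rw [hρ]
            linarith)
    refine h.trans ?_
    have h2 : EE q (fun z => d * (6 + 2 * psi n (t z) (s0 z))) = d * (6 + 2 * e1) := by
      rw [EE_mul, EE_add (fun z => (6 : ℝ)) (fun z => 2 * psi n (t z) (s0 z)), EE_const hq,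
        EE_mul, he1]
    linarith
  -- heights
  have ht := H_height hq t
  have hs0 := H_height hq s0
  have hs1 := H_height hq s1
  -- entropy relations
  have r1 := ce (fun z => (l1 z, l3 z, s0 z, s1 z, Y z, t z))
    (fun z => (l1 z, l3 z, s0 z, s1 z, t z, t' z)) (by
      intro x y _ _ h; simp only [Prod.mk.injEq] at h ⊢; tauto) (by
      intro x y _ _ h; simp only [Prod.mk.injEq] at h ⊢; tauto)
  have r2 : H q (fun z => (l1 z, l3 z, s0 z, s1 z, Y z, t z)) ≤
      H q (fun z => (l1 z, l3 z, s0 z, s1 z, Y z)) + H q t := subadd hq (by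
      intro x y _ _ h; simp only [Prod.mk.injEq] at h ⊢; tauto)
  have r3 : H q (fun z => (l1 z, l3 z, s0 z, s1 z, Y z)) ≤
      H q (fun z => (l1 z, l3 z, s0 z)) + H q (fun z => (s1 z, Y z)) := subadd hq (by
      intro x y _ _ h; simp only [Prod.mk.injEq] at h ⊢; tauto)
  have r4 : H q (fun z => (s1 z, Y z)) ≤ H q s1 + H q Y := subadd hq (by
      intro x y _ _ h; simp only [Prod.mk.injEq] at h ⊢; tauto)
  have r5 : H q (fun z => (s0 z, s1 z, Y z)) ≤ H q s0 + H q (fun z => (s1 z, Y z)) := subadd hq (by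
      intro x y _ _ h; simp only [Prod.mk.injEq] at h ⊢; tauto)
  have r6 := ce (fun z => (s0 z, s1 z, Y z, t z)) (fun z => (s0 z, s1 z, Y z, t z, t' z)) (by
      intro x y _ _ h; simp only [Prod.mk.injEq] at h ⊢; tauto) (by
      intro x y _ _ h; simp only [Prod.mk.injEq] at h ⊢; tauto)
  have r7 : H q (fun z => (s0 z, s1 z, Y z, t z)) ≤ H q (fun z => (s0 z, s1 z, Y z)) + H q t :=
    subadd hq (by intro x y _ _ h; simp only [Prod.mk.injEq] at h ⊢; tauto)
  have r8 : H q (fun z => ((s0 z, s1 z, Y z, t z, t' z), cell A D (t z) (l1 z),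
        cell A D (t' z) (l3 z))) + H q (fun z => (s0 z, t z, t' z)) ≤
      H q (fun z => (s0 z, s1 z, Y z, t z, t' z)) +
      H q (fun z => (s0 z, t z, t' z, cell A D (t z) (l1 z), cell A D (t' z) (l3 z))) :=
    submod' hq (by intro x y _ _ h; simp only [Prod.mk.injEq] at h ⊢; tauto)
      (by intro x y _ _ h; simp only [Prod.mk.injEq] at h ⊢; tauto)
      (by intro x y _ _ h; simp only [Prod.mk.injEq] at h ⊢; tauto)
  have r9 : H q (fun z => (l1 z, l3 z, s0 z, s1 z, Y z, t z)) +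
      H q (fun z => (s0 z, s1 z, Y z, Z z)) ≤
      H q (fun z => (l1 z, l3 z, s0 z, s1 z, Y z)) +
      H q (fun z => ((s0 z, s1 z, Y z, Z z), t z)) :=
    submod' hq (by
      intro x y _ _ h
      simp only [Prod.mk.injEq] at h ⊢
      obtain ⟨h1, h2, h3, h4, h5⟩ := h
      exact ⟨h3, h4, h5, hZd x y h4 h5 h1 h2⟩)
      (by intro x y _ _ h; simp only [Prod.mk.injEq] at h ⊢; tauto)
      (by intro x y _ _ h; simp only [Prod.mk.injEq] at h ⊢; tauto)
  have r10 : H q (fun z => (l1 z, l3 z, s0 z, s1 z, Y z, t z)) +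
      H q (fun z => ((s0 z, s1 z, Y z, Z z), l1 z)) ≤
      H q (fun z => (l1 z, l3 z, s0 z, s1 z, Y z)) +
      H q (fun z => ((s0 z, s1 z, Y z, Z z), l1 z, t z)) :=
    submod' hq (by
      intro x y _ _ h
      simp only [Prod.mk.injEq] at h ⊢
      obtain ⟨h1, h2, h3, h4, h5⟩ := h
      exact ⟨⟨h3, h4, h5, hZd x y h4 h5 h1 h2⟩, h1⟩)
      (by intro x y _ _ h; simp only [Prod.mk.injEq] at h ⊢; tauto)
      (by intro x y _ _ h; simp only [Prod.mk.injEq] at h ⊢; tauto)
  have orc := hOC d n Ω A D b C hO Θ _ q l1 t (fun z => (s0 z, s1 z, Y z, Z z)) hq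
  have hT2 := hc.T2
  have hU2 := hc.U2
  rw [hph]
  -- names
  generalize hN : Real.log (n : ℝ) = N at r1 r2 r3 r4 r5 r6 r7 r8 r9 r10 orc hT2 hU2 cf cg ht hs0 hs1 hHY
  obtain ⟨x6, hx6⟩ : ∃ x6, x6 = H q (fun z => (l1 z, l3 z, s0 z, s1 z, t z, t' z)) := ⟨_, rfl⟩
  obtain ⟨X, hX⟩ : ∃ X, X = H q (fun z => (l1 z, l3 z, s0 z, s1 z, Y z, t z)) := ⟨_, rfl⟩
  obtain ⟨W, hW⟩ : ∃ W, W = H q (fun z => (l1 z, l3 z, s0 z, s1 z, Y z)) := ⟨_, rfl⟩
  obtain ⟨u2, hu2⟩ : ∃ u2, u2 = H q (fun z => (l1 z, l3 z, s0 z)) := ⟨_, rfl⟩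
  obtain ⟨q1, hq1⟩ : ∃ q1, q1 = H q (fun z => ((s0 z, s1 z, Y z, Z z), l1 z)) := ⟨_, rfl⟩
  obtain ⟨q0, hq0⟩ : ∃ q0, q0 = H q (fun z => (s0 z, s1 z, Y z, Z z)) := ⟨_, rfl⟩
  obtain ⟨q2, hq2⟩ : ∃ q2, q2 = H q (fun z => ((s0 z, s1 z, Y z, Z z), t z,
    cell A D (t z) (l1 z))) := ⟨_, rfl⟩
  obtain ⟨q3, hq3⟩ : ∃ q3, q3 = H q (fun z => ((s0 z, s1 z, Y z, Z z), t z)) := ⟨_, rfl⟩
  obtain ⟨q4, hq4⟩ : ∃ q4, q4 = H q (fun z => ((s0 z, s1 z, Y z, Z z), l1 z, t z)) := ⟨_, rfl⟩
  obtain ⟨hSY, hhSY⟩ : ∃ hSY, hSY = H q (fun z => (s0 z, s1 z, Y z)) := ⟨_, rfl⟩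
  obtain ⟨h1Y, hh1Y⟩ : ∃ h1Y, h1Y = H q (fun z => (s1 z, Y z)) := ⟨_, rfl⟩
  obtain ⟨R, hR⟩ : ∃ R, R = H q (fun z => ((s0 z, s1 z, Y z, t z, t' z), cell A D (t z) (l1 z),
        cell A D (t' z) (l3 z))) := ⟨_, rfl⟩
  obtain ⟨R1, hR1⟩ : ∃ R1, R1 = H q (fun z => (s0 z, s1 z, Y z, t z, t' z)) := ⟨_, rfl⟩
  obtain ⟨R2, hR2⟩ : ∃ R2, R2 = H q (fun z => (s0 z, s1 z, Y z, t z)) := ⟨_, rfl⟩
  obtain ⟨P1, hP1⟩ : ∃ P1, P1 = H q (fun z => (s0 z, t z, t' z, cell A D (t z) (l1 z),
    cell A D (t' z) (l3 z))) := ⟨_, rfl⟩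
  obtain ⟨P0, hP0⟩ : ∃ P0, P0 = H q (fun z => (s0 z, t z, t' z)) := ⟨_, rfl⟩
  simp only [← hx6, ← hX, ← hW, ← hu2, ← hq1, ← hq0, ← hq2, ← hq3, ← hq4, ← hhSY, ← hh1Y, ← hR,
    ← hR1, ← hR2, ← hP1, ← hP0] at r1 r2 r3 r4 r5 r6 r7 r8 r9 r10 orc hT2 hU2 cf cg ⊢
  clear hx6 hX hW hu2 hq1 hq0 hq2 hq3 hq4 hhSY hh1Y hR hR1 hR2 hP1 hP0 h9 ce hO hc hph
  generalize aa p = a at hT2 hU2 ⊢
  generalize hh A D p = h at hT2 hU2 ⊢
  generalize lam p = L at b1 b2 b3 hT2 hlam ⊢
  have hd : (0 : ℝ) ≤ d := Nat.cast_nonneg d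
  -- total errors
  have s1 : N - (5 * L + 12 + e2 + 3 * e1) ≤ X - W := by linarith
  have s2 : 2 * a - h + 3 * N - 5 * L - (3 + e2 + e1) ≤ W := by linarith
  have k1 : q2 - q3 ≤ (P1 - P0) - (q0 - hSY) + (3 + e2 + e1) + d * (6 + 2 * e1) +
      (5 * L + 12 + e2 + 3 * e1) := by linarith
  have k2 : N - (q4 - q1) ≤ 5 * L + 12 + e2 + 3 * e1 := by linarith
  have k3 : 2 * a - h - (q0 - hSY) - (5 * L + 12 + e2 + 3 * e1) - d * (6 + e3 + e2 + e1) ≤
      q1 - q0 := by linarith
  have m1 := mul_le_mul_of_nonneg_left k1 (by linarith : 0 ≤ b)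
  have m2 := mul_le_mul_of_nonneg_left (add_le_add_left k2 1) hC
  have z1 : 5 * L + 12 + e2 + 3 * e1 ≤ 13 * L + 28 := by linarith
  have z2 : d * (6 + 2 * e1) ≤ d * (4 * L + 14) := by
    apply mul_le_mul_of_nonneg_left _ hd; linarith
  have z3 : d * (6 + e3 + e2 + e1) ≤ d * (6 * L + 18) := by
    apply mul_le_mul_of_nonneg_left _ hd; linarith
  have z4 : (3 + e2 + e1) ≤ 4 * L + 11 := by linarith
  have w1 : b * ((3 + e2 + e1) + d * (6 + 2 * e1) + (5 * L + 12 + e2 + 3 * e1)) ≤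
      b * ((4 * L + 11) + d * (4 * L + 14) + (13 * L + 28)) := by
    apply mul_le_mul_of_nonneg_left _ (by linarith : 0 ≤ b)
    linarith
  have w2 : C * (1 + (5 * L + 12 + e2 + 3 * e1)) ≤ C * (1 + (13 * L + 28)) := by
    apply mul_le_mul_of_nonneg_left _ hC
    linarith
  have final : (13 * L + 28) + d * (6 * L + 18) +
      b * ((4 * L + 11) + d * (4 * L + 14) + (13 * L + 28)) + C * (1 + (13 * L + 28)) ≤
      1000 * ((d : ℝ) + 1) * (b + C + 1) * (1 + L) := by
    have hb0 : 0 ≤ b := by linarith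
    have t1 : 0 ≤ (d : ℝ) * L := mul_nonneg hd hlam
    have t2 : 0 ≤ b * L := mul_nonneg hb0 hlam
    have t3 : 0 ≤ C * L := mul_nonneg hC hlam
    have t4 : 0 ≤ b * d := mul_nonneg hb0 hd
    have t5 : 0 ≤ b * (d * L) := mul_nonneg hb0 t1
    have t6 : 0 ≤ C * d := mul_nonneg hC hd
    have t7 : 0 ≤ C * (d * L) := mul_nonneg hC t1
    clear orc m1 m2 w1 w2 k1 k2 k3 s1 s2 z1 z2 z3 z4 r1 r2 r3 r4 r5 r6 r7 r8 r9 r10 cf cg hT2 hU2
    have e : 1000 * ((d : ℝ) + 1) * (b + C + 1) * (1 + L) =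
      1000 * (d * b) + 1000 * (d * C) + 1000 * d + 1000 * b + 1000 * C + 1000 +
      1000 * (d * b * L) + 1000 * (d * C * L) + 1000 * (d * L) + 1000 * (b * L) + 1000 * (C * L) +
        1000 * L := by ring
    rw [e]
    linarith
  have m1' : b * (q2 - q3) ≤ b * (P1 - P0) - b * (q0 - hSY) +
      b * ((3 + e2 + e1) + d * (6 + 2 * e1) + (5 * L + 12 + e2 + 3 * e1)) :=
    m1.trans (le_of_eq (by ring))
  have e5 : (b - 1) * (q0 - hSY) = b * (q0 - hSY) - (q0 - hSY) := by ring
  rw [e5]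
  linarith

end Pool.Agent.W46.HD
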